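import Pool.Agent.Helper4.NF.Num

/-!
# Numbers for the programs over symbols
-/

set_option autoImplicit false

namespace Pool.Agent.Helper66.NB

open Pool.Agent.Helper4.NF (large_of)

/-- B16a: the numbers. -/
theorem numbers_real (n m Q : ℕ) (s K K' : ℝ) (_hs0 : 0 ≤ s) (hm : 1 ≤ m) (hQ : 1 ≤ Q) (hK0 : 0 ≤ K) (hK : K ≤ Q ^ 2)
    (hK0' : 0 ≤ K') (hK' : K' ≤ 1 - 2 * Real.log n / m) (hm2 : (6 * (m * Q) ^ 2 : ℝ) ≤ Real.sqrt n)
    (hS : s ≤ (n : ℝ) ^ ((n : ℝ) / 3)) :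
    n * m * K' ^ m + s * (Real.exp n * (4 * m ^ 2 * K / n + 2 * m ^ 2 * n * K' ^ m) ^ (n - 1)) ≤ 1 / 200 := by
  have hQ1 : (1 : ℝ) ≤ Q := by exact_mod_cast hQ
  have hm1 : (1 : ℝ) ≤ m := by exact_mod_cast hm
  have hmQ : (m : ℝ) ^ 2 ≤ (m * Q) ^ 2 := by
    refine pow_le_pow_left₀ (by linarith) ?_ 2
    nlinarith
  have hm2' : (6 * m ^ 2 : ℝ) ≤ Real.sqrt n := by linarith
  obtain ⟨h46, h216, hl⟩ := large_of n m K' hm hK0' hK' hm2'
  have hn0 : (0 : ℝ) < n := by linarith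
  have hn1 : 1 ≤ n := by
    have : 0 < n := by exact_mod_cast hn0
    omega
  have hm0 : (0 : ℝ) < m := by linarith
  have hs : Real.sqrt n * Real.sqrt n = n := Real.mul_self_sqrt hn0.le
  have hr0 : 0 < Real.sqrt n := by linarith
  -- the power
  have hKm : K' ^ m ≤ 1 / (n : ℝ) ^ 2 := by
    have h1 : K' ≤ Real.exp (-(2 * Real.log n / m)) := by
      have := Real.add_one_le_exp (-(2 * Real.log n / m))
      linarith
    calc K' ^ m ≤ Real.exp (-(2 * Real.log n / m)) ^ m := pow_le_pow_left₀ hK0' h1 m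
      _ = Real.exp (-(2 * Real.log n)) := by
          rw [← Real.exp_nat_mul]
          congr 1
          field_simp
      _ = 1 / (n : ℝ) ^ 2 := by
          rw [Real.exp_neg, two_mul, Real.exp_add, Real.exp_log hn0, one_div, sq]
  have hKm0 : 0 ≤ K' ^ m := pow_nonneg hK0' m
  -- first term
  have hA : (n : ℝ) * m * K' ^ m ≤ 1 / 400 := by
    have h1 : (n : ℝ) * m * K' ^ m ≤ n * m * (1 / (n : ℝ) ^ 2) :=
      mul_le_mul_of_nonneg_left hKm (by positivity)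
    have h2 : (n : ℝ) * m * (1 / (n : ℝ) ^ 2) = m / n := by
      field_simp
    have h3 : (m : ℝ) / n ≤ 1 / 400 := by
      rw [div_le_div_iff₀ hn0 (by norm_num)]
      nlinarith
    linarith
  -- the base
  have hB : 4 * (m : ℝ) ^ 2 * K / n + 2 * m ^ 2 * n * K' ^ m ≤ (Real.sqrt n)⁻¹ := by
    have h1 : 4 * (m : ℝ) ^ 2 * K / n ≤ 4 * (m * Q) ^ 2 / n := by
      apply div_le_div_of_nonneg_right _ hn0.le
      calc 4 * (m : ℝ) ^ 2 * K ≤ 4 * (m : ℝ) ^ 2 * Q ^ 2 := mul_le_mul_of_nonneg_left hK (by positivity)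
        _ = 4 * (m * Q) ^ 2 := by ring
    have h2 : 2 * (m : ℝ) ^ 2 * n * K' ^ m ≤ 2 * (m * Q) ^ 2 / n := by
      calc 2 * (m : ℝ) ^ 2 * n * K' ^ m ≤ 2 * (m : ℝ) ^ 2 * n * (1 / (n : ℝ) ^ 2) :=
            mul_le_mul_of_nonneg_left hKm (by positivity)
        _ = 2 * m ^ 2 / n := by field_simp
        _ ≤ 2 * (m * Q) ^ 2 / n := by
            apply div_le_div_of_nonneg_right _ hn0.le
            linarith
    have h3 : 4 * ((m : ℝ) * Q) ^ 2 / n + 2 * (m * Q) ^ 2 / n = 6 * (m * Q) ^ 2 / n := by ring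
    have h4 : 6 * ((m : ℝ) * Q) ^ 2 / n ≤ Real.sqrt n / n := div_le_div_of_nonneg_right hm2 hn0.le
    have h5 : Real.sqrt n / n = (Real.sqrt n)⁻¹ := by
      rw [div_eq_iff hn0.ne', ← hs]
      field_simp
      rw [Real.sqrt_sq hr0.le]
    linarith
  have hB0 : 0 ≤ 4 * (m : ℝ) ^ 2 * K / n + 2 * m ^ 2 * n * K' ^ m := by positivity
  have hC : (4 * (m : ℝ) ^ 2 * K / n + 2 * m ^ 2 * n * K' ^ m) ^ (n - 1) ≤
      Real.exp (-((n : ℝ) - 1) * (Real.log n / 2)) := by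
    calc (4 * (m : ℝ) ^ 2 * K / n + 2 * m ^ 2 * n * K' ^ m) ^ (n - 1) ≤ ((Real.sqrt n)⁻¹) ^ (n - 1) :=
          pow_le_pow_left₀ hB0 hB _
      _ = Real.exp (-((n : ℝ) - 1) * (Real.log n / 2)) := by
          have h1 : (Real.sqrt n)⁻¹ = Real.exp (-(Real.log n / 2)) := by
            rw [Real.exp_neg, ← Real.log_sqrt hn0.le, Real.exp_log hr0]
          rw [h1, ← Real.exp_nat_mul, Nat.cast_sub hn1]
          congr 1
          push_cast
          ring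
  have hS' : s ≤ Real.exp (Real.log n * (n / 3)) := by
    rw [Real.rpow_def_of_pos hn0] at hS
    exact hS
  have hD : s * (Real.exp n * (4 * (m : ℝ) ^ 2 * K / n + 2 * m ^ 2 * n * K' ^ m) ^ (n - 1)) ≤ 1 / 400 := by
    calc s * (Real.exp n * (4 * (m : ℝ) ^ 2 * K / n + 2 * m ^ 2 * n * K' ^ m) ^ (n - 1))
        ≤ Real.exp (Real.log n * (n / 3)) * (Real.exp n * Real.exp (-((n : ℝ) - 1) * (Real.log n / 2))) := by
          apply mul_le_mul hS' _ (by positivity) (by positivity)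
          exact mul_le_mul_of_nonneg_left hC (by positivity)
      _ = Real.exp (Real.log n * (n / 3) + (n + -((n : ℝ) - 1) * (Real.log n / 2))) := by
          rw [Real.exp_add, Real.exp_add]
      _ ≤ Real.exp (-10) := by
          apply Real.exp_le_exp.mpr
          have : (0 : ℝ) ≤ (n / 6 - 1 / 2) * (Real.log n - 10) := by
            apply mul_nonneg <;> linarith
          nlinarith
      _ ≤ 1 / 400 := by
          have h1 : (400 : ℝ) ≤ Real.exp 10 := by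
            have h1 : Real.exp 10 = Real.exp 1 ^ 10 := by rw [← Real.exp_nat_mul]; norm_num
            have h2 : (2.7182818283 : ℝ) < Real.exp 1 := Real.exp_one_gt_d9
            rw [h1]
            calc (400 : ℝ) ≤ (2.7182818283 : ℝ) ^ 10 := by norm_num
              _ ≤ Real.exp 1 ^ 10 := pow_le_pow_left₀ (by norm_num) h2.le 10
          rw [Real.exp_neg, one_div]
          exact inv_anti₀ (by norm_num) h1
  linarith

/-- B16b: the part of the ripe blocks. -/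
theorem ripe_part (q Q r k T : ℕ) (δ : ℝ) (hq : 2 ≤ q) (hqQ : q ∣ Q) (hQ : 1 ≤ Q) (hr : 1 ≤ r) (hk : 1 ≤ k)
    (hδ : 0 < δ) (hr2 : (2 * r : ℝ) ≤ δ * Q) (hT : (T : ℝ) ≤ (1 - 1 / q - δ) * (k * Q ^ 2)) :
    ((T / ((Q - (r - 1)) * (Q - Q / q)) : ℕ) : ℝ) / k ≤ 1 - δ / 2 := by
  have hQ0 : (0 : ℝ) < Q := by exact_mod_cast hQ
  have hk0 : (0 : ℝ) < k := by exact_mod_cast hk
  have hq0 : (0 : ℝ) < q := by exact_mod_cast (by omega : 0 < q)
  have hq2 : (2 : ℝ) ≤ q := by exact_mod_cast hq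
  have hu1 : 1 / (q : ℝ) ≤ 1 / 2 := one_div_le_one_div_of_le (by norm_num) hq2
  have hu0 : 0 < 1 / (q : ℝ) := by positivity
  -- `δ < 1`
  have hd1 : 0 ≤ 1 - 1 / (q : ℝ) - δ := by
    by_contra hneg
    push Not at hneg
    have h1 : (1 - 1 / (q : ℝ) - δ) * (k * Q ^ 2) < 0 := mul_neg_of_neg_of_pos hneg (by positivity)
    have h2 : (0 : ℝ) ≤ T := Nat.cast_nonneg _
    linarith
  have hrQ : (r : ℝ) ≤ Q := by nlinarith
  have hrQ' : r - 1 ≤ Q := by
    have : r ≤ Q := by exact_mod_cast hrQ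
    omega
  have e1 : ((Q - (r - 1) : ℕ) : ℝ) = Q - (r - 1) := by
    rw [Nat.cast_sub hrQ', Nat.cast_sub hr, Nat.cast_one]
  have e2 : ((Q - Q / q : ℕ) : ℝ) = Q * (1 - 1 / q) := by
    rw [Nat.cast_sub (Nat.div_le_self Q q), Nat.cast_div hqQ hq0.ne']
    field_simp
  have h1 : (Q : ℝ) * (1 - δ / 2) ≤ ((Q - (r - 1) : ℕ) : ℝ) := by
    rw [e1]
    nlinarith
  have h3 : 0 < (Q : ℝ) * (1 - δ / 2) := by
    have : 0 < 1 - δ / 2 := by linarith
    positivity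
  have h4 : 0 < (Q : ℝ) * (1 - 1 / q) := by
    have : 0 < 1 - 1 / (q : ℝ) := by linarith
    positivity
  have h5 : ((T / ((Q - (r - 1)) * (Q - Q / q)) : ℕ) : ℝ) ≤
      (1 - 1 / q - δ) * (k * Q ^ 2) / ((Q * (1 - δ / 2)) * (Q * (1 - 1 / q))) := by
    refine Nat.cast_div_le.trans ?_
    rw [Nat.cast_mul, e2]
    refine div_le_div₀ (by positivity) hT (by positivity) ?_
    exact mul_le_mul_of_nonneg_right h1 h4.le
  rw [div_le_iff₀ hk0]
  refine h5.trans ?_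
  rw [div_le_iff₀ (by positivity)]
  have h6 : (1 - 1 / (q : ℝ) - δ) ≤ (1 - δ / 2) * ((1 - δ / 2) * (1 - 1 / q)) := by
    nlinarith [mul_pos hδ hu0, mul_nonneg (sq_nonneg δ) (by linarith : (0 : ℝ) ≤ 1 - 1 / q)]
  calc (1 - 1 / (q : ℝ) - δ) * (k * Q ^ 2) ≤ ((1 - δ / 2) * ((1 - δ / 2) * (1 - 1 / q))) * (k * Q ^ 2) :=
        mul_le_mul_of_nonneg_right h6 (by positivity)
    _ = (1 - δ / 2) * k * (Q * (1 - δ / 2) * (Q * (1 - 1 / q))) := by ring

end Pool.Agent.Helper66.NB
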