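import Pool.Agent.Helper4.NF.Num

/-!
# Numbers for the programs over symbols, with a bound tending to zero
-/

set_option autoImplicit false

namespace Pool.Agent.Helper66.NB

open Pool.Agent.Helper4.NF (large_of)

/-- The numbers, with the bound `2 / √n`. -/
theorem numbers_sqrt (n m Q : ℕ) (s K K' : ℝ) (_hs0 : 0 ≤ s) (hm : 1 ≤ m) (hQ : 1 ≤ Q) (hK0 : 0 ≤ K) (hK : K ≤ Q ^ 2)
    (hK0' : 0 ≤ K') (hK' : K' ≤ 1 - 2 * Real.log n / m) (hm2 : (6 * (m * Q) ^ 2 : ℝ) ≤ Real.sqrt n)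
    (hS : s ≤ (n : ℝ) ^ ((n : ℝ) / 3)) :
    n * m * K' ^ m + s * (Real.exp n * (4 * m ^ 2 * K / n + 2 * m ^ 2 * n * K' ^ m) ^ (n - 1)) ≤
      2 / Real.sqrt n := by
  have hQ1 : (1 : ℝ) ≤ Q := by exact_mod_cast hQ
  have hm1 : (1 : ℝ) ≤ m := by exact_mod_cast hm
  have hmQ : (m : ℝ) ^ 2 ≤ (m * Q) ^ 2 := by
    refine pow_le_pow_left₀ (by linarith) ?_ 2
    nlinarith
  have hm2' : (6 * m ^ 2 : ℝ) ≤ Real.sqrt n := by linarith
  obtain ⟨h46, h216, hl⟩ := large_of n m K' hm hK0' hK' hm2'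
  have hn0 : (0 : ℝ) < n := by linarith
  have hn1 : 1 ≤ n := by
    have : 0 < n := by exact_mod_cast hn0
    omega
  have hm0 : (0 : ℝ) < m := by linarith
  have hs : Real.sqrt n * Real.sqrt n = n := Real.mul_self_sqrt hn0.le
  have hr0 : 0 < Real.sqrt n := by linarith
  have hinv : Real.sqrt n / n = (Real.sqrt n)⁻¹ := by
    rw [div_eq_iff hn0.ne', ← hs]
    field_simp
    rw [Real.sqrt_sq hr0.le]
  -- the power
  have hKm : K' ^ m ≤ 1 / (n : ℝ) ^ 2 := by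
    have h1 : K' ≤ Real.exp (-(2 * Real.log n / m)) := by
      have := Real.add_one_le_exp (-(2 * Real.log n / m))
      linarith
    calc K' ^ m ≤ Real.exp (-(2 * Real.log n / m)) ^ m := pow_le_pow_left₀ hK0' h1 m
      _ = Real.exp (-(2 * Real.log n)) := by
          rw [← Real.exp_nat_mul]
          congr 1
          field_simp
      _ = 1 / (n : ℝ) ^ 2 := by
          rw [Real.exp_neg, two_mul, Real.exp_add, Real.exp_log hn0, one_div, sq]
  have hKm0 : 0 ≤ K' ^ m := pow_nonneg hK0' m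
  -- first term
  have hA : (n : ℝ) * m * K' ^ m ≤ (Real.sqrt n)⁻¹ := by
    have h1 : (n : ℝ) * m * K' ^ m ≤ n * m * (1 / (n : ℝ) ^ 2) :=
      mul_le_mul_of_nonneg_left hKm (by positivity)
    have h2 : (n : ℝ) * m * (1 / (n : ℝ) ^ 2) = m / n := by
      field_simp
    have h3 : (m : ℝ) / n ≤ Real.sqrt n / n := by
      apply div_le_div_of_nonneg_right _ hn0.le
      nlinarith
    linarith
  -- the base
  have hB : 4 * (m : ℝ) ^ 2 * K / n + 2 * m ^ 2 * n * K' ^ m ≤ (Real.sqrt n)⁻¹ := by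
    have h1 : 4 * (m : ℝ) ^ 2 * K / n ≤ 4 * (m * Q) ^ 2 / n := by
      apply div_le_div_of_nonneg_right _ hn0.le
      calc 4 * (m : ℝ) ^ 2 * K ≤ 4 * (m : ℝ) ^ 2 * Q ^ 2 := mul_le_mul_of_nonneg_left hK (by positivity)
        _ = 4 * (m * Q) ^ 2 := by ring
    have h2 : 2 * (m : ℝ) ^ 2 * n * K' ^ m ≤ 2 * (m * Q) ^ 2 / n := by
      calc 2 * (m : ℝ) ^ 2 * n * K' ^ m ≤ 2 * (m : ℝ) ^ 2 * n * (1 / (n : ℝ) ^ 2) :=
            mul_le_mul_of_nonneg_left hKm (by positivity)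
        _ = 2 * m ^ 2 / n := by field_simp
        _ ≤ 2 * (m * Q) ^ 2 / n := by
            apply div_le_div_of_nonneg_right _ hn0.le
            linarith
    have h3 : 4 * ((m : ℝ) * Q) ^ 2 / n + 2 * (m * Q) ^ 2 / n = 6 * (m * Q) ^ 2 / n := by ring
    have h4 : 6 * ((m : ℝ) * Q) ^ 2 / n ≤ Real.sqrt n / n := div_le_div_of_nonneg_right hm2 hn0.le
    linarith
  have hB0 : 0 ≤ 4 * (m : ℝ) ^ 2 * K / n + 2 * m ^ 2 * n * K' ^ m := by positivity
  have h1' : (Real.sqrt n)⁻¹ = Real.exp (-(Real.log n / 2)) := by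
    rw [Real.exp_neg, ← Real.log_sqrt hn0.le, Real.exp_log hr0]
  have hC : (4 * (m : ℝ) ^ 2 * K / n + 2 * m ^ 2 * n * K' ^ m) ^ (n - 1) ≤
      Real.exp (-((n : ℝ) - 1) * (Real.log n / 2)) := by
    calc (4 * (m : ℝ) ^ 2 * K / n + 2 * m ^ 2 * n * K' ^ m) ^ (n - 1) ≤ ((Real.sqrt n)⁻¹) ^ (n - 1) :=
          pow_le_pow_left₀ hB0 hB _
      _ = Real.exp (-((n : ℝ) - 1) * (Real.log n / 2)) := by
          rw [h1', ← Real.exp_nat_mul, Nat.cast_sub hn1]
          congr 1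
          push_cast
          ring
  have hS' : s ≤ Real.exp (Real.log n * (n / 3)) := by
    rw [Real.rpow_def_of_pos hn0] at hS
    exact hS
  have hD : s * (Real.exp n * (4 * (m : ℝ) ^ 2 * K / n + 2 * m ^ 2 * n * K' ^ m) ^ (n - 1)) ≤
      (Real.sqrt n)⁻¹ := by
    calc s * (Real.exp n * (4 * (m : ℝ) ^ 2 * K / n + 2 * m ^ 2 * n * K' ^ m) ^ (n - 1))
        ≤ Real.exp (Real.log n * (n / 3)) * (Real.exp n * Real.exp (-((n : ℝ) - 1) * (Real.log n / 2))) := by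
          apply mul_le_mul hS' _ (by positivity) (by positivity)
          exact mul_le_mul_of_nonneg_left hC (by positivity)
      _ = Real.exp (Real.log n * (n / 3) + (n + -((n : ℝ) - 1) * (Real.log n / 2))) := by
          rw [Real.exp_add, Real.exp_add]
      _ ≤ Real.exp (-(Real.log n / 2)) := by
          apply Real.exp_le_exp.mpr
          have : (0 : ℝ) ≤ (n / 6 - 1) * (Real.log n - 10) := by
            apply mul_nonneg <;> linarith
          nlinarith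
      _ = (Real.sqrt n)⁻¹ := h1'.symm
  have h2 : 2 / Real.sqrt n = (Real.sqrt n)⁻¹ + (Real.sqrt n)⁻¹ := by
    field_simp
    norm_num
  rw [h2]
  linarith

end Pool.Agent.Helper66.NB
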